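import Mathlib
import Pool.Agent.KS6_49.VN.Low
import Pool.Agent.KS6_49.VN.Inst2

set_option autoImplicit false

/-!
# MP_72aa19_al, Q1: the v-number can exceed the regularity by an arbitrary constant

For every field `K` of characteristic zero and every `m ≥ 1` there are a standard graded `K`-algebra
`R` of finite type and a linear form `t` of `R` such that the powers `I k = (t) ^ k` form a
Noetherian graded filtration with `v(I k) = k + m` and `reg(I k) = k + 1` for all `k ≥ 1`.

The ring is the square zero extension `R = T ⋉ M(-1)` of `T = K[x,y,z,t]` by the free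
`K[y,z,t]`-module `M` of the pairs `(P, Q)` of binary forms in `s₀, s₁` of degrees `m` and `m - 1`,
on which `x` acts by `(P, Q) ↦ (ℓ Q, δ P)` with `ℓ = y s₀ + z s₁` and `δ = y ∂₁ - z ∂₀`. As `ℓ` and
`δ` commute, `x` acts nilpotently, so the regularity of `M` is `0`; but the elements of `M` killed
by `x` are the multiples of `ℓ ^ m`, which has degree `m`.

`LCZero` says that the homogeneous part of degree `d` of
`H^i(I) = colim_s H^i(f 0 ^ s, …, f 3 ^ s; I)` (Koszul cohomology) is zero; the linear forms `f j`
generate an ideal which contains a power of each homogeneous element of positive degree, so this is the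
local cohomology with support in `R_+`.
-/

namespace Pool.Agent.Results.MP_72aa19_al.ArbitraryGap

open Pool.Agent.KS6_49.VN

universe u

/-- **The v-number can exceed the regularity by an arbitrary constant.** For every field `K` of
characteristic zero and every `m ≥ 1` there are a standard graded `K`-algebra `R`, a Noetherian
ring, and a linear form `t` such that the ideals `I k = (t) ^ k` form a Noetherian graded filtration
with `v(I k) = k + m` and `reg(I k) = k + 1` for all `k ≥ 1`. -/
theorem result (K : Type u) [Field K] [CharZero K] (m : ℕ) (hm : 1 ≤ m) :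
    ∃ (R : Type u) (_ : CommRing R) (_ : Algebra K R) (𝒜 : ℕ → Submodule K R) (f : Fin 4 → R)
      (I : ℕ → Ideal R),
      Nontrivial R ∧ IsNoetherianRing R ∧ StandardGraded 𝒜 ∧
      DefinesIrrelevant 𝒜 f (fun _ => 1) ∧
      IsGradedFiltration 𝒜 I ∧ IsNoetherianRing (reesRing I) ∧
      (∃ t ∈ 𝒜 1, ∀ k, I k = Ideal.span {t} ^ k) ∧
      ∀ k : ℕ, 1 ≤ k → vNumber 𝒜 (I k) = k + m ∧
        regularity 𝒜 (I k) f (fun _ => 1) = ((((k : ℤ) + 1 : ℤ) : ℝ) : EReal) := by
  obtain ⟨m, rfl⟩ := Nat.exists_eq_add_of_le' hm
  let _ : Dat K := Osp.dat K m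
  refine ⟨RR K, inferInstance, inferInstance, GA K, ff K, Ik K, inferInstance, noeth K,
    standard_GA K, irrelevant_ff K, filtration_Ik K, noetherian_Ik K,
    ⟨ff K 3, ff_mem K 3, Ik_eq K⟩, ?_⟩
  intro k hk
  obtain ⟨k, rfl⟩ := Nat.exists_eq_add_of_le' hk
  exact ⟨vNumber_eq k, regularity_eq (k + 1)⟩

end Pool.Agent.Results.MP_72aa19_al.ArbitraryGap
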